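import Pool.Agent.helper37.QA.Quasi

/-!
In a trapping region whose closure misses an algebraic hypersurface there are only finitely many
periodic points (contraction in the style of Earle and Hamilton, with perturbations of the identity
of `GL_{k+1}` in place of dilations).
-/

set_option autoImplicit false

namespace Pool.Agent.helper15.QB

open MvPolynomial Filter Topology Pool.Agent.helper37.QA

variable {k d : ℕ}

theorem eval_diff {m : ℕ} (p : MvPolynomial (Fin m) ℂ) :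
    Differentiable ℂ fun x : Fin m → ℂ => eval x p := by
  induction p using MvPolynomial.induction_on with
  | C a => simp only [eval_C]; exact differentiable_const a
  | add p q hp hq => simp only [map_add]; exact hp.add hq
  | mul_X p i hp =>
    simp only [map_mul, eval_X]
    exact hp.mul (differentiable_apply i)

theorem pmap_diff {m : ℕ} (G : Fin m → MvPolynomial (Fin m) ℂ) : Differentiable ℂ (pmap G) :=
  differentiable_pi.2 fun i => eval_diff (G i)

theorem euler {V W : Type*} [NormedAddCommGroup V] [NormedSpace ℂ V] [NormedAddCommGroup W]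
    [NormedSpace ℂ W] {P : V → W} {z : V} {D : ℕ} (hP : DifferentiableAt ℂ P z)
    (hom : ∀ t : ℂ, t ≠ 0 → P (t • z) = t ^ D • P z) : fderiv ℂ P z z = (D : ℂ) • P z := by
  have h1 : HasDerivAt (fun t : ℂ => t • z) z 1 := by
    have := (hasDerivAt_id (1 : ℂ)).smul_const z
    rwa [one_smul] at this
  have h2 : HasDerivAt (fun t : ℂ => P (t • z)) (fderiv ℂ P z z) 1 := by
    have h3 : HasFDerivAt P (fderiv ℂ P z) ((1 : ℂ) • z) := by
      rw [one_smul]; exact hP.hasFDerivAt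
    exact h3.comp_hasDerivAt 1 h1
  have h4 : HasDerivAt (fun t : ℂ => t ^ D • P z) ((D : ℂ) • P z) 1 := by
    have := (hasDerivAt_pow D (1 : ℂ)).smul_const (P z)
    simpa using this
  have h5 : (fun t : ℂ => P (t • z)) =ᶠ[𝓝 1] fun t : ℂ => t ^ D • P z := by
    filter_upwards [isOpen_ne.mem_nhds (one_ne_zero : (1 : ℂ) ≠ 0)] with t ht
    exact hom t ht
  exact h2.unique (h4.congr_of_eventuallyEq h5)

/-- the dilation by `1 + ε` modulo the line of `u`, fixing `u` -/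
noncomputable def Mop (ε : ℂ) (i : Fin (k + 1)) (u : Fin (k + 1) → ℂ) :
    (Fin (k + 1) → ℂ) →L[ℂ] (Fin (k + 1) → ℂ) :=
  (1 + ε) • ContinuousLinearMap.id ℂ _ -
    ((ε / u i) • (ContinuousLinearMap.proj i : (Fin (k + 1) → ℂ) →L[ℂ] ℂ)).smulRight u

theorem Mop_apply (ε : ℂ) (i : Fin (k + 1)) (u y : Fin (k + 1) → ℂ) :
    Mop ε i u y = (1 + ε) • y - (ε / u i * y i) • u := rfl

theorem Mop_self (ε : ℂ) (i : Fin (k + 1)) {u : Fin (k + 1) → ℂ} (hu : u i ≠ 0) :
    Mop ε i u u = u := by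
  rw [Mop_apply, div_mul_cancel₀ _ hu, ← sub_smul, add_sub_cancel_right, one_smul]

theorem Mop_near {ε : ℝ} (hε : 0 ≤ ε) {i : Fin (k + 1)} {u : Fin (k + 1) → ℂ} (hu : u ≠ 0)
    (hi : ‖u i‖ = ‖u‖) (y : Fin (k + 1) → ℂ) : ‖Mop (ε : ℂ) i u y - y‖ ≤ 2 * ε * ‖y‖ := by
  have hun : 0 < ‖u‖ := norm_pos_iff.2 hu
  have h1 : Mop (ε : ℂ) i u y - y = (ε : ℂ) • y - ((ε : ℂ) / u i * y i) • u := by
    rw [Mop_apply, add_smul, one_smul]
    abel
  rw [h1]
  refine (norm_sub_le _ _).trans ?_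
  rw [norm_smul, norm_smul, norm_mul, norm_div, hi, Complex.norm_real, Real.norm_eq_abs,
    abs_of_nonneg hε]
  have h2 : ε / ‖u‖ * ‖y i‖ * ‖u‖ = ε * ‖y i‖ := by
    field_simp
  rw [h2]
  have h3 := norm_le_pi_norm y i
  nlinarith

/-- the perturbed orbit of the line `x + s v` -/
noncomputable def cc (f : Endo k d) (ε : ℝ) (x v : Fin (k + 1) → ℂ) (ι : ℕ → Fin (k + 1)) :
    ℕ → ℂ → Fin (k + 1) → ℂ
  | 0, s => x + s • v
  | j + 1, s => Mop (ε : ℂ) (ι (j + 1)) (pmap (iter f.F (j + 1)) x) (pmap f.F (cc f ε x v ι j s))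

section orbit

variable {f : Endo k d} {O : Set (PP k)} {δ ε : ℝ}

theorem cone_ne {U : Set (PP k)} {x : Fin (k + 1) → ℂ} (hx : x ∈ cone U) : x ≠ 0 := hx.1

theorem cc_zero {x v : Fin (k + 1) → ℂ} {ι : ℕ → Fin (k + 1)}
    (hx : x ≠ 0) (hι : ∀ j, ‖pmap (iter f.F j) x (ι j)‖ = ‖pmap (iter f.F j) x‖) (j : ℕ) :
    cc f ε x v ι j 0 = pmap (iter f.F j) x := by
  induction j with
  | zero => simp [cc, pmap_iter_zero]
  | succ j ih =>
    rw [cc, ih, ← pmap_iter_succ]
    apply Mop_self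
    rw [← norm_ne_zero_iff, hι, norm_ne_zero_iff]
    exact pmap_ne (iter_nd f.nondeg (j + 1)) hx

theorem cc_mem (hδ : ∀ (z : Fin (k + 1) → ℂ) (hz : z ≠ 0), toPP ⟨z, hz⟩ ∈ closure O →
      ∀ y : Fin (k + 1) → ℂ, ‖y - pmap f.F z‖ < δ * ‖pmap f.F z‖ → y ∈ cone O)
    (hε0 : 0 ≤ ε) (hε : 2 * ε < δ) {x v : Fin (k + 1) → ℂ} {ι : ℕ → Fin (k + 1)} (hx : x ≠ 0)
    (hι : ∀ j, ‖pmap (iter f.F j) x (ι j)‖ = ‖pmap (iter f.F j) x‖) {s : ℂ}
    (hs : x + s • v ∈ cone O) (j : ℕ) : cc f ε x v ι j s ∈ cone O := by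
  induction j with
  | zero => exact hs
  | succ j ih =>
    rw [cc]
    obtain ⟨h0, hO⟩ := ih
    refine hδ _ h0 (subset_closure hO) _ ?_
    refine (Mop_near hε0 (pmap_ne (iter_nd f.nondeg (j + 1)) hx) (hι (j + 1)) _).trans_lt ?_
    have h1 : 0 < ‖pmap f.F (cc f ε x v ι j s)‖ := norm_pos_iff.2 (pmap_ne f.nondeg h0)
    exact mul_lt_mul_of_pos_right hε h1

theorem cc_diff {x v : Fin (k + 1) → ℂ} {ι : ℕ → Fin (k + 1)} (j : ℕ) :
    Differentiable ℂ (cc f ε x v ι j) := by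
  induction j with
  | zero =>
    exact (differentiable_const x).add (differentiable_id.smul_const v)
  | succ j ih =>
    exact (Mop (ε : ℂ) (ι (j + 1)) (pmap (iter f.F (j + 1)) x)).differentiable.comp
      ((pmap_diff f.F).comp ih)

theorem cc_deriv {x v : Fin (k + 1) → ℂ} {ι : ℕ → Fin (k + 1)} (hx : x ≠ 0)
    (hι : ∀ j, ‖pmap (iter f.F j) x (ι j)‖ = ‖pmap (iter f.F j) x‖) (j : ℕ) :
    ∃ (E : Fin (k + 1) → ℂ) (l : ℂ),
      HasDerivAt (fun s : ℂ => pmap (iter f.F j) (x + s • v)) E 0 ∧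
      HasDerivAt (cc f ε x v ι j) ((1 + (ε : ℂ)) ^ j • E + l • pmap (iter f.F j) x) 0 := by
  induction j with
  | zero =>
    have h1 : HasDerivAt (fun s : ℂ => x + s • v) v 0 := by
      have := ((hasDerivAt_id (0 : ℂ)).smul_const v).const_add x
      rwa [one_smul] at this
    refine ⟨v, 0, ?_, ?_⟩
    · have h2 : (fun s : ℂ => pmap (iter f.F 0) (x + s • v)) = fun s : ℂ => x + s • v := by
        funext s
        rw [pmap_iter_zero]
      rw [h2]
      exact h1
    · rw [pow_zero, one_smul, zero_smul, add_zero]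
      exact h1
  | succ j ih =>
    obtain ⟨E, l, h1, h2⟩ := ih
    set z := pmap (iter f.F j) x with hz
    set L := fderiv ℂ (pmap f.F) z with hL
    have hP : HasFDerivAt (pmap f.F) L z := (pmap_diff f.F z).hasFDerivAt
    have heul : L z = (d : ℂ) • pmap f.F z :=
      euler (pmap_diff f.F z) fun t _ => pmap_smul f.hom t z
    have hb0 : pmap (iter f.F j) (x + (0 : ℂ) • v) = z := by rw [zero_smul, add_zero]
    have hc0 : cc f ε x v ι j 0 = z := cc_zero hx hι j
    have h3 : HasDerivAt (fun s : ℂ => pmap f.F (pmap (iter f.F j) (x + s • v))) (L E) 0 := by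
      have hP' : HasFDerivAt (pmap f.F) L (pmap (iter f.F j) (x + (0 : ℂ) • v)) := by
        rw [hb0]; exact hP
      exact hP'.comp_hasDerivAt 0 h1
    have h4 : HasDerivAt (fun s : ℂ => pmap f.F (cc f ε x v ι j s))
        (L ((1 + (ε : ℂ)) ^ j • E + l • z)) 0 := by
      have hP' : HasFDerivAt (pmap f.F) L (cc f ε x v ι j 0) := by
        rw [hc0]; exact hP
      exact hP'.comp_hasDerivAt 0 h2
    set u := pmap (iter f.F (j + 1)) x with hu
    have huz : u = pmap f.F z := pmap_iter_succ f.F j x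
    have hui : u (ι (j + 1)) ≠ 0 := by
      rw [← norm_ne_zero_iff, hι, norm_ne_zero_iff]
      exact pmap_ne (iter_nd f.nondeg (j + 1)) hx
    have h5 : HasDerivAt (cc f ε x v ι (j + 1))
        (Mop (ε : ℂ) (ι (j + 1)) u (L ((1 + (ε : ℂ)) ^ j • E + l • z))) 0 :=
      (Mop (ε : ℂ) (ι (j + 1)) u).hasFDerivAt.comp_hasDerivAt 0 h4
    refine ⟨L E, l * d - (ε : ℂ) / u (ι (j + 1)) *
      ((1 + (ε : ℂ)) ^ j * (L E) (ι (j + 1))), ?_, ?_⟩
    · have h6 : (fun s : ℂ => pmap (iter f.F (j + 1)) (x + s • v)) =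
          fun s : ℂ => pmap f.F (pmap (iter f.F j) (x + s • v)) := by
        funext s
        rw [pmap_iter_succ]
      rw [h6]
      exact h3
    · have h7 : Mop (ε : ℂ) (ι (j + 1)) u (L ((1 + (ε : ℂ)) ^ j • E + l • z)) =
          (1 + (ε : ℂ)) ^ (j + 1) • L E + (l * d - (ε : ℂ) / u (ι (j + 1)) *
            ((1 + (ε : ℂ)) ^ j * (L E) (ι (j + 1)))) • u := by
        rw [map_add, map_smul, map_smul, heul, ← huz, map_add, map_smul, map_smul, map_smul,
          Mop_self _ _ hui, Mop_apply]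
        funext a
        simp only [Pi.add_apply, Pi.smul_apply, Pi.sub_apply, smul_eq_mul]
        ring
      rw [← h7]
      exact h5

/-- the degree zero function `q / h` -/
noncomputable def psi (q h : MvPolynomial (Fin (k + 1)) ℂ) (y : Fin (k + 1) → ℂ) : ℂ :=
  eval y q / eval y h

theorem psi_smul {q h : MvPolynomial (Fin (k + 1)) ℂ} {e : ℕ} (hq : q.IsHomogeneous e)
    (hh : h.IsHomogeneous e) {t : ℂ} (ht : t ≠ 0) (y : Fin (k + 1) → ℂ) :
    psi q h (t • y) = psi q h y := by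
  unfold psi
  rw [eval_smul_hom hq, eval_smul_hom hh, mul_div_mul_left _ _ (pow_ne_zero e ht)]

theorem psi_diff {q h : MvPolynomial (Fin (k + 1)) ℂ} {y : Fin (k + 1) → ℂ}
    (hy : eval y h ≠ 0) : DifferentiableAt ℂ (psi q h) y := by
  have h1 : DifferentiableAt ℂ (fun x : Fin (k + 1) → ℂ => eval x q) y := eval_diff q y
  have h2 : DifferentiableAt ℂ (fun x : Fin (k + 1) → ℂ => eval x h) y := eval_diff h y
  have h3 := h1.mul (h2.inv hy)
  have h4 : psi q h = (fun x : Fin (k + 1) → ℂ => eval x q) *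
      (fun x : Fin (k + 1) → ℂ => eval x h)⁻¹ := by
    funext x
    simp only [psi, Pi.mul_apply, Pi.inv_apply, div_eq_mul_inv]
  rw [h4]
  exact h3

theorem deriv_small {q h : MvPolynomial (Fin (k + 1)) ℂ} {e : ℕ} (hq : q.IsHomogeneous e)
    (hh : h.IsHomogeneous e)
    (hδ : ∀ (z : Fin (k + 1) → ℂ) (hz : z ≠ 0), toPP ⟨z, hz⟩ ∈ closure O →
      ∀ y : Fin (k + 1) → ℂ, ‖y - pmap f.F z‖ < δ * ‖pmap f.F z‖ → y ∈ cone O)
    (hε0 : 0 < ε) (hε : 2 * ε < δ) {B : ℝ} (hB : ∀ y ∈ cone O, ‖psi q h y‖ ≤ B)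
    (hne : ∀ y ∈ cone O, eval y h ≠ 0) {x v : Fin (k + 1) → ℂ}
    (hx : ∀ s : ℂ, ‖s‖ ≤ 1 → x + s • v ∈ cone O) (n : ℕ) :
    ‖deriv (fun s : ℂ => psi q h (pmap (iter f.F n) (x + s • v))) 0‖ ≤ B / (1 + ε) ^ n := by
  have hx0 : x ∈ cone O := by
    have := hx 0 (by simp)
    rwa [zero_smul, add_zero] at this
  have hxne : x ≠ 0 := hx0.1
  choose ι hι using fun j : ℕ => exists_norm_eq (pmap (iter f.F j) x)
  obtain ⟨E, l, h1, h2⟩ := cc_deriv (f := f) (ε := ε) (v := v) hxne hι n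
  set z := pmap (iter f.F n) x with hz
  have hc0 : cc f ε x v ι n 0 = z := cc_zero hxne hι n
  have hzO : z ∈ cone O := by
    have := cc_mem hδ hε0.le hε hxne hι (s := 0) (v := v) (by rwa [zero_smul, add_zero]) n
    rwa [hc0] at this
  have hψ : HasFDerivAt (psi q h) (fderiv ℂ (psi q h) z) z := (psi_diff (hne z hzO)).hasFDerivAt
  have heul : fderiv ℂ (psi q h) z z = 0 := by
    have := euler (D := 0) (psi_diff (q := q) (hne z hzO)) fun t ht => by
      rw [psi_smul hq hh ht, pow_zero, one_smul]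
    simpa using this
  have h3 : HasDerivAt (fun s : ℂ => psi q h (pmap (iter f.F n) (x + s • v)))
      (fderiv ℂ (psi q h) z E) 0 := by
    have hψ' : HasFDerivAt (psi q h) (fderiv ℂ (psi q h) z)
        (pmap (iter f.F n) (x + (0 : ℂ) • v)) := by
      rw [zero_smul, add_zero]; exact hψ
    exact hψ'.comp_hasDerivAt 0 h1
  have h4 : HasDerivAt (fun s : ℂ => psi q h (cc f ε x v ι n s))
      ((1 + (ε : ℂ)) ^ n * fderiv ℂ (psi q h) z E) 0 := by
    have hψ' : HasFDerivAt (psi q h) (fderiv ℂ (psi q h) z) (cc f ε x v ι n 0) := by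
      rw [hc0]; exact hψ
    have h5 := hψ'.comp_hasDerivAt 0 h2
    have h6 : fderiv ℂ (psi q h) z ((1 + (ε : ℂ)) ^ n • E + l • z) =
        (1 + (ε : ℂ)) ^ n * fderiv ℂ (psi q h) z E := by
      rw [map_add, map_smul, map_smul, heul, smul_zero, add_zero, smul_eq_mul]
    rw [h6] at h5
    exact h5
  have hmem : ∀ s : ℂ, ‖s‖ ≤ 1 → cc f ε x v ι n s ∈ cone O := fun s hs =>
    cc_mem hδ hε0.le hε hxne hι (hx s hs) n
  have h7 : ‖deriv (fun s : ℂ => psi q h (cc f ε x v ι n s)) 0‖ ≤ B / 1 := by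
    refine Complex.norm_deriv_le_of_forall_mem_sphere_norm_le one_pos ?_ ?_
    · refine DifferentiableOn.diffContOnCl ?_
      intro s hs
      have hs' : ‖s‖ ≤ 1 := by
        have := Metric.closure_ball_subset_closedBall hs
        simpa using this
      exact ((psi_diff (hne _ (hmem s hs'))).comp s (cc_diff n s)).differentiableWithinAt
    · intro s hs
      have hs' : ‖s‖ ≤ 1 := by
        have := Metric.sphere_subset_closedBall hs
        simpa using this
      exact hB _ (hmem s hs')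
  rw [h4.deriv, div_one, norm_mul, norm_pow] at h7
  rw [h3.deriv, le_div_iff₀ (by positivity)]
  have h8 : ‖(1 + (ε : ℂ))‖ = 1 + ε := by
    rw [show (1 + (ε : ℂ)) = ((1 + ε : ℝ) : ℂ) by push_cast; rfl, Complex.norm_real,
      Real.norm_eq_abs, abs_of_pos (by linarith)]
  rw [h8] at h7
  linarith

end orbit

end Pool.Agent.helper15.QB
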