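import Pool.Agent.helper15.QB.Pull

/-!
Invariant sets parametrised by an expanding map, such as invariant tori.
-/

set_option autoImplicit false

namespace Pool.Agent.helper15.QB

open MvPolynomial Filter Topology Pool.Agent.helper37.QA

variable {k d : ℕ}

theorem expand_iter {E : Type*} [MetricSpace E] {T : E → E} {c : ℝ} (hc : 0 < c)
    (hexp : ∀ z w, c * dist z w ≤ dist (T z) (T w)) (n : ℕ) (z w : E) :
    c ^ n * dist z w ≤ dist (T^[n] z) (T^[n] w) := by
  induction n with
  | zero => simp
  | succ n ih =>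
    rw [Function.iterate_succ_apply', Function.iterate_succ_apply', pow_succ, mul_comm (c ^ n) c,
      mul_assoc]
    exact (mul_le_mul_of_nonneg_left ih hc.le).trans (hexp _ _)

/-- The image of an expanding surjection of a complete metric space, with bounded fundamental
domain, is good. -/
theorem good_expand {f : Endo k d} {E : Type*} [MetricSpace E] [CompleteSpace E] {T : E → E}
    {c R : ℝ} (hc : 1 < c) (hexp : ∀ z w, c * dist z w ≤ dist (T z) (T w))
    (hsurj : Function.Surjective T) {φ : E → PP k} (hφ : Continuous φ)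
    (hR : ∀ z y : E, ∃ z', dist z' z ≤ R ∧ φ z' = φ y) {m : ℕ} (hm : 0 < m)
    (hsemi : ∀ z, f.map^[m] (φ z) = φ (T z)) : GoodSet f (Set.range φ) := by
  rintro ι U hU ⟨_, ⟨z₀, rfl⟩, hz₀⟩
  have hc0 : 0 < c := by linarith
  have hz₁ : ∀ i, φ z₀ ∈ U i := fun i => attr_sub (Set.mem_iInter.1 hz₀ i)
  -- the trapping regions contain the whole image
  have hall : ∀ i y, φ y ∈ U i := by
    intro i y
    have hV := pull_trap (hU i) hφ hm hsemi
    have hVn : ∀ (n : ℕ) (u : E), u ∈ φ ⁻¹' U i → T^[n] u ∈ φ ⁻¹' U i := by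
      intro n u hu
      induction n with
      | zero => exact hu
      | succ n ih =>
        rw [Function.iterate_succ_apply']
        exact hV ⟨_, subset_closure ih, rfl⟩
    obtain ⟨r, hr, hball⟩ := Metric.isOpen_iff.1 ((hU i).1.preimage hφ) z₀ (hz₁ i)
    obtain ⟨n, hn⟩ := pow_unbounded_of_one_lt (R / r) hc
    rw [div_lt_iff₀ hr] at hn
    obtain ⟨z', hz', hzy⟩ := hR (T^[n] z₀) y
    obtain ⟨u, hu⟩ := (hsurj.iterate n) z'
    have h1 := expand_iter hc0 hexp n u z₀
    rw [hu] at h1
    have h2 : u ∈ Metric.ball z₀ r := by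
      rw [Metric.mem_ball]
      by_contra hcon
      push Not at hcon
      have h3 : c ^ n * r ≤ c ^ n * dist u z₀ := mul_le_mul_of_nonneg_left hcon (by positivity)
      linarith
    have h3 := hVn n u (hball h2)
    rw [hu] at h3
    rw [← hzy]
    exact h3
  -- a fixed point
  have hinj : Function.Injective T := by
    intro z w hzw
    have h1 := hexp z w
    rw [hzw, dist_self] at h1
    have h2 : dist z w ≤ 0 := by
      by_contra hcon
      push Not at hcon
      have : 0 < c * dist z w := mul_pos hc0 hcon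
      linarith
    exact dist_le_zero.1 h2
  set S : E → E := Function.surjInv hsurj with hS
  have hTS : ∀ z, T (S z) = z := Function.surjInv_eq hsurj
  have hcontr : ContractingWith (⟨c⁻¹, by positivity⟩ : NNReal) S := by
    refine ⟨?_, ?_⟩
    · change c⁻¹ < 1
      exact inv_lt_one_of_one_lt₀ hc
    · refine LipschitzWith.of_dist_le_mul fun z w => ?_
      have h1 := hexp (S z) (S w)
      rw [hTS, hTS] at h1
      change dist (S z) (S w) ≤ c⁻¹ * dist z w
      rw [inv_mul_eq_div, le_div_iff₀ hc0, mul_comm]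
      exact h1
  have hne : Nonempty E := ⟨z₀⟩
  have hfix : S (ContractingWith.fixedPoint S hcontr) = ContractingWith.fixedPoint S hcontr :=
    hcontr.fixedPoint_isFixedPt
  have hfix2 : T (ContractingWith.fixedPoint S hcontr) = ContractingWith.fixedPoint S hcontr := by
    have h1 := congrArg T hfix
    rw [hTS] at h1
    exact h1.symm
  exact periodic_image hU hm hsemi (fun i => hall i _) one_pos (by simpa using hfix2)

/-- An elliptic curve (in uniformised form) which is mapped to itself by an iterate. -/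
theorem good_elliptic {f : Endo k d} {m : ℕ} (hm : 0 < m) {a b ω₁ ω₂ : ℂ} (ha : 1 < ‖a‖)
    (hω : LinearIndependent ℝ ![ω₁, ω₂]) {φ : ℂ → PP k} (hφ : Continuous φ)
    (h1 : ∀ z, φ (z + ω₁) = φ z) (h2 : ∀ z, φ (z + ω₂) = φ z)
    (hsemi : ∀ z, f.map^[m] (φ z) = φ (a * z + b)) : GoodSet f (Set.range φ) := by
  have ha0 : a ≠ 0 := by
    rintro rfl
    simp at ha
    linarith
  refine good_expand (T := fun z => a * z + b) (c := ‖a‖) (R := ‖ω₁‖ + ‖ω₂‖) ha ?_ ?_ hφ ?_ hm
    hsemi
  · intro z w
    rw [dist_add_right, dist_eq_norm, dist_eq_norm, ← mul_sub, norm_mul]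
  · intro z
    refine ⟨(z - b) / a, ?_⟩
    change a * ((z - b) / a) + b = z
    field_simp
    ring
  · intro z y
    have hper : ∀ (ω : ℂ), (∀ z, φ (z + ω) = φ z) → ∀ (n : ℤ) (z : ℂ), φ (z + n * ω) = φ z := by
      intro ω hω n
      induction n using Int.induction_on with
      | zero => intro z; simp
      | succ n ih =>
        intro z
        have h3 : z + ((n : ℤ) + 1 : ℤ) * ω = (z + (n : ℤ) * ω) + ω := by push_cast; ring
        rw [h3, hω]
        exact ih z
      | pred n ih =>
        intro z
        have h3 : φ (z + (-(n : ℤ) - 1 : ℤ) * ω) = φ (z + (-(n : ℤ) - 1 : ℤ) * ω + ω) :=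
          (hω _).symm
        have h4 : z + (-(n : ℤ) - 1 : ℤ) * ω + ω = z + (-(n : ℤ) : ℤ) * ω := by push_cast; ring
        rw [h3, h4]
        exact ih z
    set bs := basisOfLinearIndependentOfCardEqFinrank hω (by simp) with hbs
    have hsum := bs.sum_repr (z - y)
    rw [Fin.sum_univ_two] at hsum
    have hb0 : bs 0 = ω₁ := by simp [hbs]
    have hb1 : bs 1 = ω₂ := by simp [hbs]
    rw [hb0, hb1] at hsum
    set s := bs.repr (z - y) 0 with hs
    set t := bs.repr (z - y) 1 with ht
    refine ⟨y + (round s : ℤ) * ω₁ + (round t : ℤ) * ω₂, ?_, ?_⟩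
    · rw [dist_eq_norm]
      have h3 : y + (round s : ℤ) * ω₁ + (round t : ℤ) * ω₂ - z =
          -(((s - round s : ℝ) : ℂ) * ω₁ + ((t - round t : ℝ) : ℂ) * ω₂) := by
        have h4 : z = y + ((s : ℂ) * ω₁ + (t : ℂ) * ω₂) := by
          have h5 : (s : ℂ) * ω₁ + (t : ℂ) * ω₂ = z - y := by
            rw [← hsum, Complex.real_smul, Complex.real_smul]
          rw [h5]
          ring
        rw [h4]
        push_cast
        ring
      rw [h3, norm_neg]
      refine (norm_add_le _ _).trans ?_
      rw [norm_mul, norm_mul, Complex.norm_real, Complex.norm_real, Real.norm_eq_abs,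
        Real.norm_eq_abs]
      have h5 := abs_sub_round s
      have h6 := abs_sub_round t
      have h7 := norm_nonneg ω₁
      have h8 := norm_nonneg ω₂
      nlinarith
    · rw [hper ω₂ h2, hper ω₁ h1]

end Pool.Agent.helper15.QB
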