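import Pool.Agent.helper15.QB.Contr

/-!
Finiteness of the periodic points in a trapping region whose closure misses a hypersurface.
-/

set_option autoImplicit false

namespace Pool.Agent.helper15.QB

open MvPolynomial Filter Topology Pool.Agent.helper37.QA

variable {k d : ℕ}

theorem sph_compact {C : Set (PP k)} (hC : IsClosed C) :
    IsCompact {x : Fin (k + 1) → ℂ | ‖x‖ = 1 ∧ x ∈ cone C} := by
  have hcpt : IsCompact (Metric.sphere (0 : Fin (k + 1) → ℂ) 1) := isCompact_sphere _ _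
  have hsub : ∀ x : Metric.sphere (0 : Fin (k + 1) → ℂ) 1, x.1 ≠ 0 := by
    rintro ⟨x, hx⟩ rfl
    simp at hx
  have h1 : Continuous fun x : Metric.sphere (0 : Fin (k + 1) → ℂ) 1 =>
      toPP ⟨x.1, hsub x⟩ :=
    toPP_cont.comp (Continuous.subtype_mk continuous_subtype_val _)
  have : CompactSpace (Metric.sphere (0 : Fin (k + 1) → ℂ) 1) := isCompact_iff_compactSpace.1 hcpt
  have h2 := ((hC.preimage h1).isCompact).image continuous_subtype_val
  have h3 : {x : Fin (k + 1) → ℂ | ‖x‖ = 1 ∧ x ∈ cone C} =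
      Subtype.val '' ((fun x : Metric.sphere (0 : Fin (k + 1) → ℂ) 1 =>
        toPP ⟨x.1, hsub x⟩) ⁻¹' C) := by
    ext x
    constructor
    · rintro ⟨hx1, hx, hxC⟩
      exact ⟨⟨x, by simpa using hx1⟩, hxC, rfl⟩
    · rintro ⟨⟨y, hy⟩, hyC, rfl⟩
      exact ⟨by simpa using hy, hsub ⟨y, hy⟩, hyC⟩
  rw [h3]
  exact h2

theorem norm_one_smul {x : Fin (k + 1) → ℂ} (hx : x ≠ 0) :
    ((‖x‖ : ℂ)⁻¹) ≠ 0 ∧ ‖((‖x‖ : ℂ)⁻¹) • x‖ = 1 := by
  have hn : ‖x‖ ≠ 0 := norm_ne_zero_iff.2 hx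
  refine ⟨inv_ne_zero (by exact_mod_cast hn), ?_⟩
  simp [norm_smul, hn]

theorem psi_bound {C : Set (PP k)} (hC : IsClosed C) {q h : MvPolynomial (Fin (k + 1)) ℂ} {e : ℕ}
    (hq : q.IsHomogeneous e) (hh : h.IsHomogeneous e) (hne : ∀ x ∈ cone C, eval x h ≠ 0) :
    ∃ B : ℝ, ∀ x ∈ cone C, ‖psi q h x‖ ≤ B := by
  have hcont : ContinuousOn (psi q h) {x : Fin (k + 1) → ℂ | ‖x‖ = 1 ∧ x ∈ cone C} := by
    intro x hx
    exact (psi_diff (hne x hx.2)).continuousAt.continuousWithinAt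
  obtain ⟨B, hB⟩ := (sph_compact hC).exists_bound_of_continuousOn hcont
  refine ⟨B, fun x hx => ?_⟩
  obtain ⟨hc, hn⟩ := norm_one_smul hx.1
  rw [← psi_smul hq hh hc x]
  exact hB _ ⟨hn, cone_smul hx hc⟩

theorem pmap_mem_cone {f : Endo k d} {O : Set (PP k)} (hO : IsTrapping f O)
    {x : Fin (k + 1) → ℂ} (hx : x ∈ cone O) (n : ℕ) : pmap (iter f.F n) x ∈ cone O := by
  obtain ⟨h0, h1⟩ := hx
  refine ⟨pmap_ne (iter_nd f.nondeg n) h0, ?_⟩
  rw [← map_iter]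
  exact iterate_mem hO h1 n

theorem contract {f : Endo k d} {O : Set (PP k)} (hO : IsTrapping f O)
    {q h : MvPolynomial (Fin (k + 1)) ℂ} {e : ℕ} (hq : q.IsHomogeneous e)
    (hh : h.IsHomogeneous e) (hne : ∀ x ∈ cone (closure O), eval x h ≠ 0) :
    ∃ (B : ℝ) (c : ℝ), 1 < c ∧ ∀ (x₀ : Fin (k + 1) → ℂ) (ρ : ℝ),
      Metric.ball x₀ (3 * ρ) ⊆ cone O → ∀ x ∈ Metric.ball x₀ ρ, ∀ y ∈ Metric.ball x₀ ρ, ∀ n : ℕ,
        ‖psi q h (pmap (iter f.F n) y) - psi q h (pmap (iter f.F n) x)‖ ≤ B / c ^ n := by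
  obtain ⟨δ, hδ0, hδ⟩ := gap hO
  obtain ⟨B, hB⟩ := psi_bound isClosed_closure hq hh hne
  have hsub : ∀ x : Fin (k + 1) → ℂ, x ∈ cone O → x ∈ cone (closure O) := fun x hx =>
    ⟨hx.1, subset_closure hx.2⟩
  set ε : ℝ := δ / 3 with hε
  have hε0 : 0 < ε := by positivity
  have hε1 : 2 * ε < δ := by rw [hε]; linarith
  refine ⟨B, 1 + ε, by linarith, ?_⟩
  intro x₀ ρ hball x hx y hy n
  set w : Fin (k + 1) → ℂ := y - x with hw
  have hwn : ‖w‖ < 2 * ρ := by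
    rw [hw]
    have h1 : ‖y - x₀‖ < ρ := by rwa [← dist_eq_norm]
    have h2 : ‖x - x₀‖ < ρ := by rwa [← dist_eq_norm]
    calc ‖y - x‖ = ‖(y - x₀) - (x - x₀)‖ := by congr 1; abel
      _ ≤ ‖y - x₀‖ + ‖x - x₀‖ := norm_sub_le _ _
      _ < 2 * ρ := by linarith
  set S : Set ℂ := {s | x + s • w ∈ Metric.ball x₀ ρ} with hS
  have hSc : Convex ℝ S := by
    intro a ha b hb s t hs ht hst
    have h1 := convex_ball x₀ ρ ha hb hs ht hst
    have h2 : s • (x + a • w) + t • (x + b • w) = x + (s • a + t • b) • w := by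
      have h3 : (s • a + t • b) • w = s • (a • w) + t • (b • w) := by
        rw [add_smul, smul_assoc, smul_assoc]
      rw [h3, smul_add, smul_add]
      have h4 : s • x + t • x = x := by rw [← add_smul, hst, one_smul]
      calc s • x + s • a • w + (t • x + t • b • w) = (s • x + t • x) + (s • a • w + t • b • w) := by
            abel
        _ = x + (s • a • w + t • b • w) := by rw [h4]
    change x + (s • a + t • b) • w ∈ Metric.ball x₀ ρ
    rw [← h2]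
    exact h1
  have hS0 : (0 : ℂ) ∈ S := by
    change x + (0 : ℂ) • w ∈ Metric.ball x₀ ρ
    rwa [zero_smul, add_zero]
  have hS1 : (1 : ℂ) ∈ S := by
    change x + (1 : ℂ) • w ∈ Metric.ball x₀ ρ
    rw [one_smul, hw, add_sub_cancel]
    exact hy
  have hloc : ∀ s ∈ S, ∀ t : ℂ, ‖t‖ ≤ 1 → (x + s • w) + t • w ∈ cone O := by
    intro s hs t ht
    apply hball
    rw [mem_ball_iff_norm]
    have h1 : ‖x + s • w - x₀‖ < ρ := by
      have : x + s • w ∈ Metric.ball x₀ ρ := hs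
      rwa [mem_ball_iff_norm] at this
    calc ‖x + s • w + t • w - x₀‖ = ‖(x + s • w - x₀) + t • w‖ := by congr 1; abel
      _ ≤ ‖x + s • w - x₀‖ + ‖t • w‖ := norm_add_le _ _
      _ = ‖x + s • w - x₀‖ + ‖t‖ * ‖w‖ := by rw [norm_smul]
      _ ≤ ‖x + s • w - x₀‖ + 1 * ‖w‖ := by gcongr
      _ < 3 * ρ := by linarith
  set g : ℂ → ℂ := fun s => psi q h (pmap (iter f.F n) (x + s • w)) with hg
  have hgd : ∀ s ∈ S, DifferentiableAt ℂ g s := by
    intro s hs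
    have h1 : x + s • w ∈ cone O := by
      have := hloc s hs 0 (by simp)
      rwa [zero_smul, add_zero] at this
    have h2 := pmap_mem_cone hO h1 n
    have h3 : DifferentiableAt ℂ (psi q h) (pmap (iter f.F n) (x + s • w)) :=
      psi_diff (hne _ (hsub _ h2))
    have h4 : DifferentiableAt ℂ (fun s : ℂ => x + s • w) s :=
      (differentiableAt_id.smul_const w).const_add x
    have h5 : DifferentiableAt ℂ (pmap (iter f.F n)) (x + s • w) := pmap_diff _ _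
    exact (h3.comp (x + s • w) h5).comp s h4
  have hgb : ∀ s ∈ S, ‖deriv g s‖ ≤ B / (1 + ε) ^ n := by
    intro s hs
    have h1 := deriv_small (f := f) hq hh hδ hε0 hε1 (fun z hz => hB z (hsub z hz))
      (fun z hz => hne z (hsub z hz)) (x := x + s • w) (v := w) (hloc s hs) n
    have h2 : (fun t : ℂ => psi q h (pmap (iter f.F n) (x + s • w + t • w))) =
        fun t : ℂ => g (s + t) := by
      funext t
      simp only [hg]
      rw [add_smul, add_assoc]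
    rw [h2, deriv_comp_const_add, add_zero] at h1
    exact h1
  have h1 := hSc.norm_image_sub_le_of_norm_deriv_le (f := g) hgd hgb hS0 hS1
  have h2 : g 1 = psi q h (pmap (iter f.F n) y) := by
    simp only [hg]
    rw [one_smul, hw, add_sub_cancel]
  have h3 : g 0 = psi q h (pmap (iter f.F n) x) := by
    simp only [hg]
    rw [zero_smul, add_zero]
  rw [h2, h3] at h1
  simpa using h1

/-- the values of `q / h` at periodic points of a small ball coincide -/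
theorem same_value {f : Endo k d} {O : Set (PP k)} (hO : IsTrapping f O)
    {q h : MvPolynomial (Fin (k + 1)) ℂ} {e : ℕ} (hq : q.IsHomogeneous e)
    (hh : h.IsHomogeneous e) (hne : ∀ x ∈ cone (closure O), eval x h ≠ 0)
    {x₀ : Fin (k + 1) → ℂ} {ρ : ℝ} (hball : Metric.ball x₀ (3 * ρ) ⊆ cone O)
    {x y : Fin (k + 1) → ℂ} (hx : x ∈ Metric.ball x₀ ρ) (hy : y ∈ Metric.ball x₀ ρ)
    (hx0 : x ≠ 0) (hy0 : y ≠ 0) {m n : ℕ} (hm : 0 < m) (hn : 0 < n)
    (hxm : f.map^[m] (toPP ⟨x, hx0⟩) = toPP ⟨x, hx0⟩)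
    (hyn : f.map^[n] (toPP ⟨y, hy0⟩) = toPP ⟨y, hy0⟩) : psi q h x = psi q h y := by
  obtain ⟨B, c, hc, hB⟩ := contract hO hq hh hne
  have key : ∀ (z : Fin (k + 1) → ℂ) (hz : z ≠ 0) (r : ℕ),
      f.map^[r] (toPP ⟨z, hz⟩) = toPP ⟨z, hz⟩ → ∀ l : ℕ,
      psi q h (pmap (iter f.F (r * l)) z) = psi q h z := by
    intro z hz r hr l
    have h1 : f.map^[r * l] (toPP ⟨z, hz⟩) = toPP ⟨z, hz⟩ := by
      rw [Function.iterate_mul]
      exact Function.iterate_fixed hr l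
    rw [map_iter] at h1
    obtain ⟨t, ht⟩ := (Projectivization.mk_eq_mk_iff ℂ _ _ _ _).1 h1
    have h2 : pmap (iter f.F (r * l)) z = (t : ℂ) • z := ht.symm
    rw [h2, psi_smul hq hh t.ne_zero]
  have h1 : ∀ l : ℕ, ‖psi q h y - psi q h x‖ ≤ B / c ^ (m * n * l) := by
    intro l
    have h2 := hB x₀ ρ hball x hx y hy (m * n * l)
    have h3 := key x hx0 m hxm (n * l)
    have h4 := key y hy0 n hyn (m * l)
    rw [show m * (n * l) = m * n * l by ring] at h3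
    rw [show n * (m * l) = m * n * l by ring] at h4
    rwa [h3, h4] at h2
  have h2 : Tendsto (fun l : ℕ => B / c ^ (m * n * l)) atTop (𝓝 0) := by
    have h3 : Tendsto (fun l : ℕ => m * n * l) atTop atTop :=
      Filter.tendsto_id.const_mul_atTop' (by positivity)
    exact ((tendsto_pow_atTop_atTop_of_one_lt hc).const_div_atTop B).comp h3
  have h3 : ‖psi q h y - psi q h x‖ ≤ 0 := ge_of_tendsto' h2 h1
  have h4 : psi q h y - psi q h x = 0 := norm_le_zero_iff.1 h3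
  exact (sub_eq_zero.1 h4).symm

theorem same_point {e : ℕ} (he : 0 < e) {h : MvPolynomial (Fin (k + 1)) ℂ}
    {x y : Fin (k + 1) → ℂ} (hx0 : x ≠ 0) (hy0 : y ≠ 0) (hx : eval x h ≠ 0) (hy : eval y h ≠ 0)
    (hpsi : ∀ q : MvPolynomial (Fin (k + 1)) ℂ, q.IsHomogeneous e → psi q h x = psi q h y) :
    toPP ⟨x, hx0⟩ = toPP ⟨y, hy0⟩ := by
  obtain ⟨i, hi⟩ := Function.ne_iff.1 hx0
  have hi' : x i ≠ 0 := hi
  obtain ⟨r, rfl⟩ : ∃ r, e = r + 1 := ⟨e - 1, by omega⟩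
  have key : ∀ l, x i ^ r * x l * eval y h = y i ^ r * y l * eval x h := by
    intro l
    have h1 := hpsi (X i ^ r * X l)
      ((isHomogeneous_X_pow i r).mul (isHomogeneous_X ℂ l))
    simp only [psi, map_mul, map_pow, eval_X] at h1
    rw [div_eq_div_iff hx hy] at h1
    exact h1
  have hyi : y i ≠ 0 := by
    intro h0
    have h1 := key i
    rw [h0, mul_zero, zero_mul] at h1
    exact mul_ne_zero (mul_ne_zero (pow_ne_zero r hi') hi') hy h1
  refine toPP_eq hx0 hy0 (y i ^ r * eval x h / (x i ^ r * eval y h)) ?_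
  funext l
  have h1 := key l
  have h2 : x i ^ r ≠ 0 := pow_ne_zero r hi'
  simp only [Pi.smul_apply, smul_eq_mul]
  rw [div_mul_eq_mul_div, div_eq_iff (mul_ne_zero h2 hy)]
  linear_combination -h1

theorem finite_periodic {f : Endo k d} {O : Set (PP k)} (hO : IsTrapping f O)
    {h : MvPolynomial (Fin (k + 1)) ℂ} {e : ℕ} (he : 0 < e)
    (hh : h.IsHomogeneous e) (hne : ∀ x ∈ cone (closure O), eval x h ≠ 0) :
    {p : PP k | p ∈ O ∧ ∃ n : ℕ, 0 < n ∧ f.map^[n] p = p}.Finite := by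
  have hCc : IsClosed (f.map '' closure O) :=
    (isClosed_closure.isCompact.image (map_cont f)).isClosed
  have hK := sph_compact hCc
  have hr : ∀ x : Fin (k + 1) → ℂ, x ∈ cone O → ∃ ρ : ℝ, 0 < ρ ∧
      Metric.ball x (3 * ρ) ⊆ cone O := by
    intro x hx
    obtain ⟨r, hr0, hr⟩ := Metric.isOpen_iff.1 (cone_open hO.1) x hx
    exact ⟨r / 3, by positivity, by rwa [show 3 * (r / 3) = r by ring]⟩
  choose! ρ hρ0 hρ using hr
  have hsub : ∀ x ∈ {x : Fin (k + 1) → ℂ | ‖x‖ = 1 ∧ x ∈ cone (f.map '' closure O)},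
      x ∈ cone O := fun x hx => ⟨hx.2.1, hO.2.2 hx.2.2⟩
  obtain ⟨t, htK, ht⟩ := hK.elim_nhds_subcover (fun x => Metric.ball x (ρ x)) fun x hx =>
    Metric.ball_mem_nhds x (hρ0 x (hsub x hx))
  have hfin : ∀ x ∈ t, {p : PP k | (p ∈ O ∧ ∃ n : ℕ, 0 < n ∧ f.map^[n] p = p) ∧
      ∃ y ∈ Metric.ball x (ρ x), ∃ hy : y ≠ 0, toPP ⟨y, hy⟩ = p}.Finite := by
    intro x hx
    apply Set.Subsingleton.finite
    rintro p ⟨⟨hpO, m, hm, hpm⟩, y, hy, hy0, rfl⟩ p' ⟨⟨hpO', n, hn, hpn⟩, z, hz, hz0, rfl⟩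
    have hball := hρ x (hsub x (htK x hx))
    refine same_point he hy0 hz0 ?_ ?_ fun q hq =>
      same_value hO hq hh hne hball hy hz hy0 hz0 hm hn hpm hpn
    · exact hne y ⟨hy0, subset_closure hpO⟩
    · exact hne z ⟨hz0, subset_closure hpO'⟩
  refine (t.finite_toSet.biUnion hfin).subset ?_
  rintro p ⟨hpO, n, hn, hpn⟩
  obtain ⟨hc, hn1⟩ := norm_one_smul p.rep_nonzero
  have hpeq : toPP ⟨((‖p.rep‖ : ℂ)⁻¹) • p.rep, smul_ne_zero hc p.rep_nonzero⟩ = p := by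
    rw [toPP_eq (smul_ne_zero hc p.rep_nonzero) p.rep_nonzero _ rfl]
    exact p.mk_rep
  have hpC : p ∈ f.map '' closure O := by
    refine ⟨f.map^[n - 1] p, subset_closure (iterate_mem hO hpO _), ?_⟩
    rw [← Function.iterate_succ_apply' f.map, show (n - 1).succ = n by omega]
    exact hpn
  have hmem : ((‖p.rep‖ : ℂ)⁻¹) • p.rep ∈
      {x : Fin (k + 1) → ℂ | ‖x‖ = 1 ∧ x ∈ cone (f.map '' closure O)} := by
    refine ⟨hn1, smul_ne_zero hc p.rep_nonzero, ?_⟩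
    rw [hpeq]
    exact hpC
  have h1 := ht hmem
  simp only [Set.mem_iUnion] at h1
  obtain ⟨x, hx, hxb⟩ := h1
  simp only [Set.mem_iUnion]
  exact ⟨x, hx, ⟨hpO, n, hn, hpn⟩, _, hxb, smul_ne_zero hc p.rep_nonzero, hpeq⟩

end Pool.Agent.helper15.QB
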