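import Pool.Agent.helper15.QB.Expand

/-!
Endomorphisms preserving a flag of linear subspaces.
-/

set_option autoImplicit false

namespace Pool.Agent.helper15.QB

open MvPolynomial Filter Topology Pool.Agent.helper37.QA

variable {k d : ℕ}

theorem eval_aeval' {m n : ℕ} (g : Fin m → MvPolynomial (Fin n) ℂ) (p : MvPolynomial (Fin m) ℂ)
    (x : Fin n → ℂ) : eval x (aeval g p) = eval (fun i => eval x (g i)) p := by
  have h := eval₂Hom_bind₁ (RingHom.id ℂ) x g p
  exact h

/-- The restriction to the hyperplane where the first coordinate vanishes. -/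
noncomputable def restr (f : Endo (k + 1) d)
    (h0 : ∀ x : Fin (k + 2) → ℂ, x 0 = 0 → eval x (f.F 0) = 0) : Endo k d where
  F := fun i => aeval (Fin.cons 0 X : Fin (k + 2) → MvPolynomial (Fin (k + 1)) ℂ) (f.F i.succ)
  hom := fun i => by
    have h1 := (f.hom i.succ).aeval (Fin.cons 0 X : Fin (k + 2) → MvPolynomial (Fin (k + 1)) ℂ)
      (n := 1) (by
        intro j
        refine Fin.cases ?_ (fun j => ?_) j
        · exact isHomogeneous_zero _ _ _
        · exact isHomogeneous_X ℂ j)
    rwa [one_mul] at h1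
  nondeg := fun y hy => by
    have h1 : (fun i => eval y ((Fin.cons 0 X : Fin (k + 2) → MvPolynomial (Fin (k + 1)) ℂ) i)) =
        (Fin.cons 0 y : Fin (k + 2) → ℂ) := by
      funext i
      refine Fin.cases ?_ (fun j => ?_) i
      · simp
      · simp
    have h2 : (Fin.cons 0 y : Fin (k + 2) → ℂ) = 0 := by
      apply f.nondeg
      intro i
      refine Fin.cases ?_ (fun j => ?_) i
      · exact h0 _ (by simp)
      · have h3 := hy j
        rw [eval_aeval', h1] at h3
        exact h3
    funext i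
    have h3 := congrFun h2 i.succ
    simpa using h3

/-- The hyperplane embedding. -/
noncomputable def emb (p : PP k) : PP (k + 1) :=
  toPP ⟨(Fin.cons 0 p.rep : Fin (k + 2) → ℂ), fun h => p.rep_nonzero (by
    funext i
    have h1 := congrFun h i.succ
    simpa using h1)⟩

theorem cons_ne {y : Fin (k + 1) → ℂ} (hy : y ≠ 0) : (Fin.cons 0 y : Fin (k + 2) → ℂ) ≠ 0 :=
  fun h => hy (by
    funext i
    have h1 := congrFun h i.succ
    simpa using h1)

theorem emb_toPP {y : Fin (k + 1) → ℂ} (hy : y ≠ 0) :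
    emb (toPP ⟨y, hy⟩) = toPP ⟨(Fin.cons 0 y : Fin (k + 2) → ℂ), cons_ne hy⟩ := by
  obtain ⟨a, ha⟩ := Projectivization.exists_smul_eq_mk_rep ℂ y hy
  refine toPP_eq _ _ (a : ℂ) ?_
  have h1 : (toPP ⟨y, hy⟩ : PP k).rep = (a : ℂ) • y := ha.symm
  rw [h1]
  funext i
  refine Fin.cases ?_ (fun j => ?_) i
  · simp
  · simp

theorem emb_cont : Continuous (emb (k := k)) := by
  refine continuous_coinduced_dom.2 ?_
  have h1 : emb ∘ toPP = fun v : {v : Fin (k + 1) → ℂ // v ≠ 0} =>
      toPP ⟨(Fin.cons 0 v.1 : Fin (k + 2) → ℂ), cons_ne v.2⟩ := by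
    funext v
    exact emb_toPP v.2
  rw [h1]
  refine toPP_cont.comp (Continuous.subtype_mk ?_ _)
  refine continuous_pi fun i => ?_
  refine Fin.cases ?_ (fun j => ?_) i
  · simp only [Fin.cons_zero]
    exact continuous_const
  · simp only [Fin.cons_succ]
    exact (continuous_apply j).comp continuous_subtype_val

theorem emb_semi (f : Endo (k + 1) d)
    (h0 : ∀ x : Fin (k + 2) → ℂ, x 0 = 0 → eval x (f.F 0) = 0) (p : PP k) :
    f.map (emb p) = emb ((restr f h0).map p) := by
  have hp : toPP ⟨p.rep, p.rep_nonzero⟩ = p := p.mk_rep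
  rw [← hp, emb_toPP, map_toPP, map_toPP, emb_toPP]
  congr 2
  funext i
  have h1 : (fun i => eval p.rep
      ((Fin.cons 0 X : Fin (k + 2) → MvPolynomial (Fin (k + 1)) ℂ) i)) =
        (Fin.cons 0 p.rep : Fin (k + 2) → ℂ) := by
    funext i
    refine Fin.cases ?_ (fun j => ?_) i
    · simp
    · simp
  refine Fin.cases ?_ (fun j => ?_) i
  · change eval _ (f.F 0) = (0 : ℂ)
    exact h0 _ (by simp)
  · change eval _ (f.F j.succ) = eval p.rep
      (aeval (Fin.cons 0 X : Fin (k + 2) → MvPolynomial (Fin (k + 1)) ℂ) (f.F j.succ))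
    rw [eval_aeval', h1]

theorem emb_surj {x : PP (k + 1)} (hx : x.rep 0 = 0) : ∃ p : PP k, emb p = x := by
  have h1 : (Fin.cons 0 (fun i : Fin (k + 1) => x.rep i.succ) : Fin (k + 2) → ℂ) = x.rep := by
    funext i
    refine Fin.cases ?_ (fun j => ?_) i
    · simp [hx]
    · simp
  have h2 : (fun i : Fin (k + 1) => x.rep i.succ) ≠ 0 := by
    intro h
    apply x.rep_nonzero
    rw [← h1, h]
    funext i
    refine Fin.cases ?_ (fun j => ?_) i
    · simp
    · simp
  refine ⟨toPP ⟨_, h2⟩, ?_⟩
  rw [emb_toPP]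
  have hx' : toPP ⟨x.rep, x.rep_nonzero⟩ = x := x.mk_rep
  refine Eq.trans ?_ hx'
  congr 2

/-- `f` maps each coordinate subspace `x₀ = ... = x_i = 0` to itself. -/
def FlagMap (f : Endo k d) : Prop :=
  ∀ (i : Fin (k + 1)) (x : Fin (k + 1) → ℂ), (∀ j ≤ i, x j = 0) → eval x (f.F i) = 0

theorem good_flag (hd : 2 ≤ d) : ∀ (k : ℕ) (f : Endo k d), FlagMap f → Good f := by
  intro k
  induction k with
  | zero => intro f _; exact good_zero f
  | succ k ih =>
    intro f hf
    have h0 : ∀ x : Fin (k + 2) → ℂ, x 0 = 0 → eval x (f.F 0) = 0 := by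
      intro x hx
      refine hf 0 x fun j hj => ?_
      have : j = 0 := Fin.ext (by have := Fin.le_def.1 hj; simpa using this)
      rw [this]
      exact hx
    have hr : FlagMap (restr f h0) := by
      intro i y hy
      have h1 : (fun i => eval y ((Fin.cons 0 X : Fin (k + 2) →
          MvPolynomial (Fin (k + 1)) ℂ) i)) = (Fin.cons 0 y : Fin (k + 2) → ℂ) := by
        funext i
        refine Fin.cases ?_ (fun j => ?_) i
        · simp
        · simp
      change eval y (aeval (Fin.cons 0 X : Fin (k + 2) → MvPolynomial (Fin (k + 1)) ℂ)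
        (f.F i.succ)) = 0
      rw [eval_aeval', h1]
      refine hf i.succ _ fun j => ?_
      refine Fin.cases ?_ (fun j => ?_) j
      · intro _
        simp
      · intro hj
        simp only [Fin.cons_succ]
        exact hy j (Fin.succ_le_succ_iff.1 hj)
    refine good_of_hypersurface hd (e := 1) one_pos (h := X 0) (isHomogeneous_X ℂ 0)
      (good_image (ih (restr f h0) hr) emb_cont (m := 1) one_pos fun z => ?_) ?_
    · rw [Function.iterate_one]
      exact emb_semi f h0 z
    · intro x hx
      rw [eval_X] at hx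
      obtain ⟨p, hp⟩ := emb_surj hx
      exact ⟨p, hp⟩

end Pool.Agent.helper15.QB
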