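import Pool.Agent.helper15.QB.Flag

/-!
Linear changes of coordinates.
-/

set_option autoImplicit false

namespace Pool.Agent.helper15.QB

open MvPolynomial Filter Topology Pool.Agent.helper37.QA

variable {k d : ℕ}

/-- The linear forms of a linear automorphism. -/
noncomputable def lin (L : (Fin (k + 1) → ℂ) ≃ₗ[ℂ] (Fin (k + 1) → ℂ)) (i : Fin (k + 1)) :
    MvPolynomial (Fin (k + 1)) ℂ :=
  ∑ b, C (L (Pi.single b 1) i) * X b

theorem lin_hom (L : (Fin (k + 1) → ℂ) ≃ₗ[ℂ] (Fin (k + 1) → ℂ)) (i : Fin (k + 1)) :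
    (lin L i).IsHomogeneous 1 := by
  unfold lin
  refine IsHomogeneous.sum _ _ _ fun b _ => ?_
  have h0 := (isHomogeneous_C (Fin (k + 1)) (L (Pi.single b 1) i)).mul (isHomogeneous_X ℂ b)
  rwa [zero_add] at h0

theorem lin_eval (L : (Fin (k + 1) → ℂ) ≃ₗ[ℂ] (Fin (k + 1) → ℂ)) (i : Fin (k + 1))
    (x : Fin (k + 1) → ℂ) : eval x (lin L i) = L x i := by
  have h1 : x = ∑ b, x b • (Pi.single b (1 : ℂ) : Fin (k + 1) → ℂ) := by
    funext a
    rw [Finset.sum_apply]
    simp [Pi.single_apply]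
  have h2 : L x = ∑ b, x b • L (Pi.single b 1) := by
    conv_lhs => rw [h1]
    rw [map_sum]
    exact Finset.sum_congr rfl fun b _ => by rw [map_smul]
  rw [h2, lin, map_sum, Finset.sum_apply]
  refine Finset.sum_congr rfl fun b _ => ?_
  simp [mul_comm]

/-- The endomorphism `L ∘ f ∘ L⁻¹`. -/
noncomputable def conj (f : Endo k d) (L : (Fin (k + 1) → ℂ) ≃ₗ[ℂ] (Fin (k + 1) → ℂ)) :
    Endo k d where
  F := fun i => aeval (fun j => aeval (lin L.symm) (f.F j)) (lin L i)
  hom := fun i => by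
    have h1 : ∀ j, (aeval (lin L.symm) (f.F j)).IsHomogeneous d := by
      intro j
      have h2 := (f.hom j).aeval (lin L.symm) (lin_hom L.symm)
      rwa [one_mul] at h2
    have h3 := (lin_hom L i).aeval _ h1
    rwa [mul_one] at h3
  nondeg := fun x hx => by
    have h1 : L (pmap f.F (L.symm x)) = 0 := by
      funext i
      have h2 := hx i
      rw [eval_aeval', lin_eval] at h2
      have h3 : (fun j => eval x (aeval (lin L.symm) (f.F j))) =
          Pool.Agent.helper37.QA.pmap f.F (L.symm x) := by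
        funext j
        rw [eval_aeval']
        have h4 : (fun i => eval x (lin L.symm i)) = L.symm x := by
          funext i
          exact lin_eval L.symm i x
        rw [h4]
        rfl
      rw [h3] at h2
      exact h2
    have h2 : Pool.Agent.helper37.QA.pmap f.F (L.symm x) = 0 := by
      have := congrArg L.symm h1
      simpa using this
    have h3 : L.symm x = 0 := f.nondeg _ fun i => congrFun h2 i
    have := congrArg L h3
    simpa using this

theorem conj_pmap (f : Endo k d) (L : (Fin (k + 1) → ℂ) ≃ₗ[ℂ] (Fin (k + 1) → ℂ))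
    (x : Fin (k + 1) → ℂ) : Pool.Agent.helper37.QA.pmap (conj f L).F x =
      L (Pool.Agent.helper37.QA.pmap f.F (L.symm x)) := by
  funext i
  change eval x (aeval (fun j => aeval (lin L.symm) (f.F j)) (lin L i)) = _
  rw [eval_aeval', lin_eval]
  have h3 : (fun j => eval x (aeval (lin L.symm) (f.F j))) =
      Pool.Agent.helper37.QA.pmap f.F (L.symm x) := by
    funext j
    rw [eval_aeval']
    have h4 : (fun i => eval x (lin L.symm i)) = L.symm x := by
      funext i
      exact lin_eval L.symm i x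
    rw [h4]
    rfl
  rw [h3]

theorem lin_ne (L : (Fin (k + 1) → ℂ) ≃ₗ[ℂ] (Fin (k + 1) → ℂ)) {x : Fin (k + 1) → ℂ}
    (hx : x ≠ 0) : L x ≠ 0 := by
  intro h
  apply hx
  have := congrArg L.symm h
  simpa using this

/-- The automorphism of projective space. -/
noncomputable def linMap (L : (Fin (k + 1) → ℂ) ≃ₗ[ℂ] (Fin (k + 1) → ℂ)) (p : PP k) : PP k :=
  toPP ⟨L p.rep, lin_ne L p.rep_nonzero⟩

theorem linMap_toPP (L : (Fin (k + 1) → ℂ) ≃ₗ[ℂ] (Fin (k + 1) → ℂ)) {x : Fin (k + 1) → ℂ}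
    (hx : x ≠ 0) : linMap L (toPP ⟨x, hx⟩) = toPP ⟨L x, lin_ne L hx⟩ := by
  obtain ⟨a, ha⟩ := Projectivization.exists_smul_eq_mk_rep ℂ x hx
  have h1 : (toPP ⟨x, hx⟩ : PP k).rep = (a : ℂ) • x := ha.symm
  refine toPP_eq _ _ (a : ℂ) ?_
  rw [h1, map_smul]

theorem linMap_cont (L : (Fin (k + 1) → ℂ) ≃ₗ[ℂ] (Fin (k + 1) → ℂ)) : Continuous (linMap L) := by
  refine continuous_coinduced_dom.2 ?_
  have h1 : linMap L ∘ toPP = fun v : {v : Fin (k + 1) → ℂ // v ≠ 0} =>
      toPP ⟨L v.1, lin_ne L v.2⟩ := by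
    funext v
    exact linMap_toPP L v.2
  rw [h1]
  refine toPP_cont.comp (Continuous.subtype_mk ?_ _)
  exact (L.toLinearMap.continuous_of_finiteDimensional).comp continuous_subtype_val

theorem linMap_semi (f : Endo k d) (L : (Fin (k + 1) → ℂ) ≃ₗ[ℂ] (Fin (k + 1) → ℂ)) (p : PP k) :
    f.map (linMap L.symm p) = linMap L.symm ((conj f L).map p) := by
  have hp : toPP ⟨p.rep, p.rep_nonzero⟩ = p := p.mk_rep
  rw [← hp, linMap_toPP, map_toPP, map_toPP, linMap_toPP]
  congr 2
  rw [conj_pmap]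
  simp

theorem linMap_surj (L : (Fin (k + 1) → ℂ) ≃ₗ[ℂ] (Fin (k + 1) → ℂ)) :
    Function.Surjective (linMap L) := by
  intro p
  refine ⟨toPP ⟨L.symm p.rep, lin_ne L.symm p.rep_nonzero⟩, ?_⟩
  rw [linMap_toPP]
  have hp : toPP ⟨p.rep, p.rep_nonzero⟩ = p := p.mk_rep
  refine Eq.trans ?_ hp
  congr 2
  simp

/-- If an iterate of `f` preserves a full flag of linear subspaces, then `f` is good. -/
theorem good_flag_iter (hd : 2 ≤ d) (f : Endo k d) {m : ℕ} (hm : 0 < m)
    (L : (Fin (k + 1) → ℂ) ≃ₗ[ℂ] (Fin (k + 1) → ℂ))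
    (hL : ∀ (i : Fin (k + 1)) (p : PP k), (∀ j ≤ i, L p.rep j = 0) →
      ∀ j ≤ i, L (f.map^[m] p).rep j = 0) : Good f := by
  have hdm : 2 ≤ d ^ m := by
    calc 2 ≤ d := hd
      _ = d ^ 1 := (pow_one d).symm
      _ ≤ d ^ m := Nat.pow_le_pow_right (by omega) hm
  have hfl : FlagMap (conj (itE f m) L) := by
    intro i x hx
    by_cases hx0 : x = 0
    · subst hx0
      have h1 := eval_smul_hom ((conj (itE f m) L).hom i) 0 (0 : Fin (k + 1) → ℂ)
      rw [smul_zero, zero_pow (by omega), zero_mul] at h1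
      exact h1
    · have h1 := lin_ne L.symm hx0
      have h2 := hL i (toPP ⟨L.symm x, h1⟩) (by
        intro j hj
        obtain ⟨a, ha⟩ := Projectivization.exists_smul_eq_mk_rep ℂ (L.symm x) h1
        have h3 : (toPP ⟨L.symm x, h1⟩ : PP k).rep = (a : ℂ) • L.symm x := ha.symm
        rw [h3, map_smul, L.apply_symm_apply, Pi.smul_apply, hx j hj, smul_zero]) i le_rfl
      rw [map_iter] at h2
      obtain ⟨a, ha⟩ := Projectivization.exists_smul_eq_mk_rep ℂ
        (Pool.Agent.helper37.QA.pmap (iter f.F m) (L.symm x)) (pmap_ne (iter_nd f.nondeg m) h1)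
      have h3 : (toPP ⟨Pool.Agent.helper37.QA.pmap (iter f.F m) (L.symm x),
          pmap_ne (iter_nd f.nondeg m) h1⟩ : PP k).rep =
          (a : ℂ) • Pool.Agent.helper37.QA.pmap (iter f.F m) (L.symm x) := ha.symm
      rw [h3, map_smul, Pi.smul_apply, smul_eq_mul, mul_eq_zero] at h2
      have h4 := h2.resolve_left a.ne_zero
      have h5 := congrFun (conj_pmap (itE f m) L x) i
      exact h5.trans h4
  have hg := good_image (f := f) (good_flag hdm k _ hfl) (linMap_cont L.symm) hm (fun z => by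
    have h1 := linMap_semi (itE f m) L z
    rw [itE_map] at h1
    exact h1)
  rw [(linMap_surj L.symm).range_eq] at hg
  intro ι U hU hne
  obtain ⟨x, ⟨-, hx⟩, hper⟩ := hg ι U hU (by rwa [Set.univ_inter])
  exact ⟨x, hx, hper⟩

end Pool.Agent.helper15.QB
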