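import Pool.Agent.helper15.QB.Lin

/-!
Periodic lines of the projective plane, triangular maps.
-/

set_option autoImplicit false

namespace Pool.Agent.helper15.QB

open MvPolynomial Filter Topology Pool.Agent.helper37.QA

variable {k d : ℕ}

theorem rep_zero_iff {x : Fin (k + 1) → ℂ} (hx : x ≠ 0)
    (l : (Fin (k + 1) → ℂ) →ₗ[ℂ] ℂ) : l (toPP ⟨x, hx⟩ : PP k).rep = 0 ↔ l x = 0 := by
  obtain ⟨a, ha⟩ := Projectivization.exists_smul_eq_mk_rep ℂ x hx
  have h3 : (toPP ⟨x, hx⟩ : PP k).rep = (a : ℂ) • x := ha.symm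
  rw [h3, map_smul, smul_eq_mul, mul_eq_zero]
  constructor
  · rintro (h | h)
    · exact absurd h a.ne_zero
    · exact h
  · exact fun h => Or.inr h

/-- If an iterate of `f` maps a hyperplane to itself and all the restrictions are good, then `f` is
good. -/
theorem good_hyperplane (hd : 2 ≤ d) (f : Endo (k + 1) d) {m : ℕ} (hm : 0 < m)
    (hgood : ∀ g : Endo k (d ^ m), Good g)
    (L : (Fin (k + 2) → ℂ) ≃ₗ[ℂ] (Fin (k + 2) → ℂ))
    (hL : ∀ p : PP (k + 1), L p.rep 0 = 0 → L (f.map^[m] p).rep 0 = 0) : Good f := by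
  have h0 : ∀ x : Fin (k + 2) → ℂ, x 0 = 0 → eval x ((conj (itE f m) L).F 0) = 0 := by
    intro x hx
    have h5 := congrFun (conj_pmap (itE f m) L x) 0
    refine h5.trans ?_
    by_cases hx0 : x = 0
    · subst hx0
      have hdm : d ^ m ≠ 0 := pow_ne_zero _ (by omega)
      have h1 : Pool.Agent.helper37.QA.pmap (itE f m).F (L.symm 0) = 0 := by
        funext i
        have h2 := eval_smul_hom ((itE f m).hom i) 0 (0 : Fin (k + 2) → ℂ)
        rw [smul_zero, zero_pow hdm, zero_mul] at h2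
        rw [map_zero]
        exact h2
      rw [h1, map_zero]
      rfl
    · have h1 := lin_ne L.symm hx0
      set l : (Fin (k + 2) → ℂ) →ₗ[ℂ] ℂ :=
        (LinearMap.proj 0 : (Fin (k + 2) → ℂ) →ₗ[ℂ] ℂ) ∘ₗ L.toLinearMap with hl
      have hlv : ∀ x, l x = L x 0 := fun x => rfl
      have h2 : l (toPP ⟨L.symm x, h1⟩ : PP (k + 1)).rep = 0 := by
        rw [rep_zero_iff, hlv, L.apply_symm_apply]
        exact hx
      have h3 := hL _ h2
      rw [map_iter] at h3
      have h4 := (rep_zero_iff (pmap_ne (iter_nd f.nondeg m) h1) l).1 h3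
      exact h4
  have hdm : 2 ≤ d ^ m := by
    calc 2 ≤ d := hd
      _ = d ^ 1 := (pow_one d).symm
      _ ≤ d ^ m := Nat.pow_le_pow_right (by omega) hm
  have hgc : Good (conj (itE f m) L) := by
    refine good_of_hypersurface hdm (e := 1) one_pos (h := X 0) (isHomogeneous_X ℂ 0)
      (good_image (hgood (restr (conj (itE f m) L) h0)) emb_cont (m := 1) one_pos fun z => ?_) ?_
    · rw [Function.iterate_one]
      exact emb_semi _ h0 z
    · intro x hx
      rw [eval_X] at hx
      obtain ⟨p, hp⟩ := emb_surj hx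
      exact ⟨p, hp⟩
  have hg := good_image (f := f) hgc (linMap_cont L.symm) hm (fun z => by
    have h1 := linMap_semi (itE f m) L z
    rw [itE_map] at h1
    exact h1)
  rw [(linMap_surj L.symm).range_eq] at hg
  intro ι U hU hne
  obtain ⟨x, ⟨-, hx⟩, hper⟩ := hg ι U hU (by rwa [Set.univ_inter])
  exact ⟨x, hx, hper⟩

/-- A periodic line in the projective plane. -/
theorem good_line (hd : 2 ≤ d) (f : Endo 2 d) {m : ℕ} (hm : 0 < m)
    (L : (Fin 3 → ℂ) ≃ₗ[ℂ] (Fin 3 → ℂ))
    (hL : ∀ p : PP 2, L p.rep 0 = 0 → L (f.map^[m] p).rep 0 = 0) : Good f := by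
  have hdm : 2 ≤ d ^ m := by
    calc 2 ≤ d := hd
      _ = d ^ 1 := (pow_one d).symm
      _ ≤ d ^ m := Nat.pow_le_pow_right (by omega) hm
  exact good_hyperplane (k := 1) hd f hm (fun g => good_one hdm g) L hL

/-- Triangular maps. -/
theorem good_tri (hd : 2 ≤ d) (f : Endo k d) (hf : ∀ i, ∀ j ∈ (f.F i).vars, j ≤ i) : Good f := by
  refine good_flag hd k f ?_
  intro i x hx
  have h1 : eval x (f.F i) = eval (0 : Fin (k + 1) → ℂ) (f.F i) := by
    refine eval₂Hom_congr' rfl ?_ rfl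
    intro j hj _
    exact hx j (hf i j hj)
  rw [h1]
  have h2 := eval_smul_hom (f.hom i) 0 (0 : Fin (k + 1) → ℂ)
  rw [smul_zero, zero_pow (by omega), zero_mul] at h2
  exact h2

end Pool.Agent.helper15.QB
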