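import Pool.Agent.helper15.QB.Fin

/-!
A quasi-attractor that misses an algebraic hypersurface contains a periodic point.
-/

set_option autoImplicit false

namespace Pool.Agent.helper15.QB

open MvPolynomial Filter Topology Pool.Agent.helper37.QA

variable {k d : ℕ}

/-- The `N`-th iterate of an endomorphism. -/
noncomputable def itE (f : Endo k d) (N : ℕ) : Endo k (d ^ N) :=
  ⟨iter f.F N, iter_hom f.hom N, iter_nd f.nondeg N⟩

theorem itE_map (f : Endo k d) (N : ℕ) : (itE f N).map = f.map^[N] := by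
  funext p
  have hp : toPP ⟨p.rep, p.rep_nonzero⟩ = p := p.mk_rep
  rw [← hp, map_iter, map_toPP]
  rfl

/-- The zero set of a homogeneous polynomial. -/
def zset (h : MvPolynomial (Fin (k + 1)) ℂ) : Set (PP k) := {p | eval p.rep h = 0}

theorem zset_iff {e : ℕ} {h : MvPolynomial (Fin (k + 1)) ℂ} (hh : h.IsHomogeneous e)
    {x : Fin (k + 1) → ℂ} (hx : x ≠ 0) : toPP ⟨x, hx⟩ ∈ zset h ↔ eval x h = 0 := by
  obtain ⟨a, ha⟩ := Projectivization.exists_smul_eq_mk_rep ℂ x hx
  have h1 : eval (toPP ⟨x, hx⟩ : PP k).rep h = (a : ℂ) ^ e * eval x h := by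
    change eval (Projectivization.mk ℂ x hx).rep h = _
    rw [← ha]
    exact eval_smul_hom hh (a : ℂ) x
  change eval (toPP ⟨x, hx⟩ : PP k).rep h = 0 ↔ _
  rw [h1, mul_eq_zero]
  constructor
  · rintro (h2 | h2)
    · exact absurd h2 (pow_ne_zero e a.ne_zero)
    · exact h2
  · exact fun h2 => Or.inr h2

theorem zset_closed {e : ℕ} {h : MvPolynomial (Fin (k + 1)) ℂ} (hh : h.IsHomogeneous e) :
    IsClosed (zset h : Set (PP k)) := by
  have h1 : IsClosed ((toPP (k := k)) ⁻¹' zset h) := by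
    have h2 : (toPP (k := k)) ⁻¹' zset h =
        {v : {v : Fin (k + 1) → ℂ // v ≠ 0} | eval v.1 h = 0} := by
      ext v
      exact zset_iff hh v.2
    rw [h2]
    exact isClosed_eq ((MvPolynomial.continuous_eval h).comp continuous_subtype_val)
      continuous_const
  exact isClosed_coinduced.2 h1

theorem iter_closure_anti {f : Endo k d} {W : Set (PP k)} (hW : IsTrapping f W) {m n : ℕ}
    (hmn : m ≤ n) : f.map^[n] '' closure W ⊆ f.map^[m] '' closure W := by
  induction n, hmn using Nat.le_induction with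
  | base => exact subset_rfl
  | succ n hmn ih =>
    refine Set.Subset.trans ?_ ih
    rintro _ ⟨y, hy, rfl⟩
    exact ⟨f.map y, subset_closure (hW.2.2 ⟨y, hy, rfl⟩), by rw [← Function.iterate_succ_apply]⟩

theorem iter_closure_sub {f : Endo k d} {W : Set (PP k)} (hW : IsTrapping f W) {n : ℕ}
    (hn : 0 < n) : f.map^[n] '' closure W ⊆ W := by
  refine (iter_closure_anti hW (m := 1) hn).trans ?_
  exact hW.2.2

/-- In a compact space, a closed set missing the attracting set misses some image. -/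
theorem exists_iter_miss {f : Endo k d} {W : Set (PP k)} (hW : IsTrapping f W) {H : Set (PP k)}
    (hH : IsClosed H) (hmiss : H ∩ attr f W = ∅) :
    ∃ N : ℕ, 0 < N ∧ H ∩ f.map^[N] '' closure W = ∅ := by
  rw [attr_eq hW] at hmiss
  obtain ⟨T, hT⟩ := hH.isCompact.elim_finite_subfamily_closed
    (fun n : ℕ => f.map^[n] '' closure W)
    (fun n => (isClosed_closure.isCompact.image ((map_cont f).iterate n)).isClosed) hmiss
  refine ⟨T.sup id + 1, Nat.succ_pos _, ?_⟩
  rw [Set.eq_empty_iff_forall_notMem] at hT ⊢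
  rintro x ⟨hxH, hx⟩
  refine hT x ⟨hxH, ?_⟩
  simp only [Set.mem_iInter]
  intro n hn
  have h1 : n ≤ T.sup id := Finset.le_sup (f := id) hn
  exact iter_closure_anti hW (by omega) hx

theorem miss (hd : 2 ≤ d) {f : Endo k d} {ι : Type*} {U : ι → Set (PP k)}
    (hU : ∀ i, IsTrapping f (U i)) (hne : (⋂ i, attr f (U i)).Nonempty) {e : ℕ} (he : 0 < e)
    {h : MvPolynomial (Fin (k + 1)) ℂ} (hh : h.IsHomogeneous e)
    (hK : ∀ x ∈ ⋂ i, attr f (U i), eval x.rep h ≠ 0) :
    ∃ x ∈ ⋂ i, attr f (U i), ∃ n : ℕ, 0 < n ∧ f.map^[n] x = x := by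
  classical
  have h1 : zset h ∩ ⋂ i, attr f (U i) = ∅ := by
    rw [Set.eq_empty_iff_forall_notMem]
    rintro x ⟨hx, hx2⟩
    exact hK x hx2 hx
  obtain ⟨J, hJ⟩ := (zset_closed hh).isCompact.elim_finite_subfamily_closed
    (fun i => attr f (U i)) (fun i => attr_closed (hU i)) h1
  have hneF : ∀ J : Finset ι, (⋂ i ∈ J, attr f (U i)).Nonempty := by
    intro J
    obtain ⟨x, hx⟩ := hne
    refine ⟨x, ?_⟩
    simp only [Set.mem_iInter] at hx ⊢
    exact fun i _ => hx i
  set W : Set (PP k) := ⋂ i ∈ J, U i with hW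
  have hWt : IsTrapping f W := trapping_inter J hU (hneF J)
  have hWa : zset h ∩ attr f W = ∅ := by
    rw [Set.eq_empty_iff_forall_notMem] at hJ ⊢
    rintro x ⟨hx, hxW⟩
    refine hJ x ⟨hx, ?_⟩
    simp only [Set.mem_iInter]
    intro i hi
    refine Set.mem_iInter.2 fun n => ?_
    exact Set.image_mono (Set.biInter_subset_of_mem hi) (Set.mem_iInter.1 hxW n)
  obtain ⟨N, hN, hNmiss⟩ := exists_iter_miss hWt (zset_closed hh) hWa
  have hCW := iter_closure_sub hWt hN
  have hCc : IsClosed (f.map^[N] '' closure W) :=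
    (isClosed_closure.isCompact.image ((map_cont f).iterate N)).isClosed
  obtain ⟨O, hOo, hCO, hOc⟩ := normal_exists_closure_subset hCc
    (hWt.1.inter (zset_closed hh).isOpen_compl) (by
      intro x hx
      refine ⟨hCW hx, fun hx2 => ?_⟩
      exact (Set.eq_empty_iff_forall_notMem.1 hNmiss) x ⟨hx2, hx⟩)
  have hOt : IsTrapping (itE f N) O := by
    refine ⟨hOo, ?_, ?_⟩
    · obtain ⟨w, hw⟩ := hWt.2.1
      exact ⟨_, hCO ⟨w, subset_closure hw, rfl⟩⟩
    · rw [itE_map]
      refine Set.Subset.trans ?_ hCO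
      exact Set.image_mono ((hOc.trans Set.inter_subset_left).trans subset_closure)
  have hOne : ∀ x ∈ cone (closure O), eval x h ≠ 0 := by
    rintro x ⟨hx, hxO⟩ hx2
    exact (hOc hxO).2 ((zset_iff hh hx).2 hx2)
  have hfin := finite_periodic hOt he hh hOne
  -- periodic points in W
  have hper : ∀ p ∈ W, (∃ n : ℕ, 0 < n ∧ f.map^[n] p = p) →
      p ∈ {p : PP k | p ∈ O ∧ ∃ n : ℕ, 0 < n ∧ (itE f N).map^[n] p = p} := by
    rintro p hpW ⟨n, hn, hpn⟩
    have h2 : ∀ l : ℕ, f.map^[n * l] p = p := by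
      intro l
      rw [Function.iterate_mul]
      exact Function.iterate_fixed hpn l
    refine ⟨hCO ⟨f.map^[n * N - N] p, subset_closure (iterate_mem hWt hpW _), ?_⟩, n, hn, ?_⟩
    · rw [← Function.iterate_add_apply, show N + (n * N - N) = n * N by
        have : N ≤ n * N := Nat.le_mul_of_pos_left N hn
        omega]
      exact h2 N
    · rw [itE_map, ← Function.iterate_mul, mul_comm]
      exact h2 N
  by_contra hcon
  have h2 : ∀ p : PP k, (∃ n : ℕ, 0 < n ∧ f.map^[n] p = p) → ∃ i, p ∉ U i := by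
    rintro p ⟨n, hn, hpn⟩
    by_contra hall
    push Not at hall
    exact hcon ⟨p, Set.mem_iInter.2 fun i => periodic_mem_attr (hU i) (hall i) hn hpn, n, hn, hpn⟩
  by_cases hι : Nonempty ι
  · have h3 : ∀ p : PP k, ∃ i, (∃ n : ℕ, 0 < n ∧ f.map^[n] p = p) → p ∉ U i := by
      intro p
      by_cases hp : ∃ n : ℕ, 0 < n ∧ f.map^[n] p = p
      · obtain ⟨i, hi⟩ := h2 p hp
        exact ⟨i, fun _ => hi⟩
      · exact ⟨hι.some, fun h => absurd h hp⟩
    choose g hg using h3
    set J' : Finset ι := J ∪ hfin.toFinset.image g with hJ'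
    obtain ⟨x, hx, n, hn, hxn⟩ := exists_periodic hd (trapping_inter J' hU (hneF J'))
    have hxU : ∀ i ∈ J', x ∈ U i := by
      simpa only [Set.mem_iInter] using hx
    have hxW : x ∈ W := by
      simp only [hW, Set.mem_iInter]
      exact fun i hi => hxU i (Finset.mem_union_left _ hi)
    have hxP := hper x hxW ⟨n, hn, hxn⟩
    refine hg x ⟨n, hn, hxn⟩ (hxU (g x) ?_)
    refine Finset.mem_union_right _ (Finset.mem_image_of_mem g ?_)
    exact hfin.mem_toFinset.2 hxP
  · obtain ⟨x, hx, n, hn, hxn⟩ := exists_periodic hd hWt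
    obtain ⟨i, -⟩ := h2 x ⟨n, hn, hxn⟩
    exact hι ⟨i⟩

end Pool.Agent.helper15.QB
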