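import Pool.Agent.helper15.QB.Miss

/-!
Quasi-attractors meeting an invariant set with a good parametrisation.
-/

set_option autoImplicit false

namespace Pool.Agent.helper15.QB

open MvPolynomial Filter Topology Pool.Agent.helper37.QA

variable {k d : ℕ}

/-- Every quasi-attractor of `f` that meets `S` contains a periodic point of `f` in `S`. -/
def GoodSet (f : Endo k d) (S : Set (PP k)) : Prop :=
  ∀ (ι : Type) (U : ι → Set (PP k)), (∀ i, IsTrapping f (U i)) →
    (S ∩ ⋂ i, attr f (U i)).Nonempty →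
    ∃ x ∈ S ∩ ⋂ i, attr f (U i), ∃ n : ℕ, 0 < n ∧ f.map^[n] x = x

/-- Every quasi-attractor of `f` contains a periodic point of `f`. -/
def Good (f : Endo k d) : Prop :=
  ∀ (ι : Type) (U : ι → Set (PP k)), (∀ i, IsTrapping f (U i)) →
    (⋂ i, attr f (U i)).Nonempty →
    ∃ x ∈ ⋂ i, attr f (U i), ∃ n : ℕ, 0 < n ∧ f.map^[n] x = x

section pull

variable {f : Endo k d} {Z : Type*} {T : Z → Z} {φ : Z → PP k} {m : ℕ}

theorem semi_iter (hsemi : ∀ z, f.map^[m] (φ z) = φ (T z)) (n : ℕ) (z : Z) :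
    f.map^[m * n] (φ z) = φ (T^[n] z) := by
  induction n with
  | zero => simp
  | succ n ih =>
    rw [show m * (n + 1) = m + m * n by ring, Function.iterate_add_apply, ih, hsemi,
      Function.iterate_succ_apply']

theorem periodic_image {ι : Type*} {U : ι → Set (PP k)} (hU : ∀ i, IsTrapping f (U i))
    (hm : 0 < m) (hsemi : ∀ z, f.map^[m] (φ z) = φ (T z)) {z : Z} (hz : ∀ i, φ z ∈ U i)
    {n : ℕ} (hn : 0 < n) (hper : T^[n] z = z) :
    ∃ x ∈ Set.range φ ∩ ⋂ i, attr f (U i), ∃ n : ℕ, 0 < n ∧ f.map^[n] x = x := by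
  have h1 : f.map^[m * n] (φ z) = φ z := by rw [semi_iter hsemi, hper]
  exact ⟨φ z, ⟨⟨z, rfl⟩, Set.mem_iInter.2 fun i =>
    periodic_mem_attr (hU i) (hz i) (Nat.mul_pos hm hn) h1⟩, m * n, Nat.mul_pos hm hn, h1⟩

variable [TopologicalSpace Z]

theorem pull_trap {U : Set (PP k)} (hU : IsTrapping f U) (hφ : Continuous φ)
    (hm : 0 < m) (hsemi : ∀ z, f.map^[m] (φ z) = φ (T z)) :
    T '' closure (φ ⁻¹' U) ⊆ φ ⁻¹' U := by
  rintro _ ⟨z, hz, rfl⟩
  change φ (T z) ∈ U
  rw [← hsemi]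
  have h1 : φ z ∈ closure U := hφ.closure_preimage_subset U hz
  exact iter_closure_sub hU hm ⟨φ z, h1, rfl⟩

variable [CompactSpace Z] [T2Space Z]

theorem pull_nonempty {ι : Type*} {U : ι → Set (PP k)} (hU : ∀ i, IsTrapping f (U i))
    (hT : Continuous T) (hφ : Continuous φ)
    (hm : 0 < m) (hsemi : ∀ z, f.map^[m] (φ z) = φ (T z)) {z₀ : Z} (hz₀ : ∀ i, φ z₀ ∈ U i) :
    (⋂ i, ⋂ n : ℕ, T^[n] '' (φ ⁻¹' U i)).Nonempty := by
  obtain ⟨z, hz⟩ := exists_clusterPt_of_compactSpace (Filter.map (fun n : ℕ => T^[n] z₀) atTop)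
  refine ⟨z, Set.mem_iInter.2 fun i => Set.mem_iInter.2 fun n => ?_⟩
  have hV := pull_trap (hU i) hφ hm hsemi
  have hit : ∀ l : ℕ, T^[l] z₀ ∈ φ ⁻¹' U i := by
    intro l
    induction l with
    | zero => exact hz₀ i
    | succ l ih =>
      rw [Function.iterate_succ_apply']
      exact hV ⟨_, subset_closure ih, rfl⟩
  have h1 : z ∈ T^[n + 1] '' closure (φ ⁻¹' U i) := by
    have hcl : IsClosed (T^[n + 1] '' closure (φ ⁻¹' U i)) :=
      (isClosed_closure.isCompact.image (hT.iterate (n + 1))).isClosed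
    rw [← hcl.closure_eq, mem_closure_iff_clusterPt]
    refine hz.mono ?_
    rw [le_principal_iff, mem_map, mem_atTop_sets]
    refine ⟨n + 1, fun l hl => ?_⟩
    refine ⟨T^[l - (n + 1)] z₀, subset_closure (hit _), ?_⟩
    rw [← Function.iterate_add_apply]
    congr 2
    omega
  obtain ⟨y, hy, hyz⟩ := h1
  refine ⟨T y, hV ⟨y, hy, rfl⟩, ?_⟩
  rw [← Function.iterate_succ_apply]
  exact hyz

end pull

/-- An image of projective space carrying a good endomorphism is good. -/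
theorem good_image {f : Endo k d} {j d' : ℕ} {g : Endo j d'} (hg : Good g) {φ : PP j → PP k}
    (hφ : Continuous φ) {m : ℕ} (hm : 0 < m) (hsemi : ∀ z, f.map^[m] (φ z) = φ (g.map z)) :
    GoodSet f (Set.range φ) := by
  rintro ι U hU ⟨_, ⟨z₀, rfl⟩, hz₀⟩
  have hz₁ : ∀ i, φ z₀ ∈ U i := fun i => attr_sub (Set.mem_iInter.1 hz₀ i)
  have hT : ∀ i, IsTrapping g (φ ⁻¹' U i) := fun i =>
    ⟨(hU i).1.preimage hφ, ⟨z₀, hz₁ i⟩, pull_trap (hU i) hφ hm hsemi⟩
  obtain ⟨z, hz, n, hn, hzn⟩ := hg ι (fun i => φ ⁻¹' U i) hT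
    (pull_nonempty hU (map_cont g) hφ hm hsemi hz₁)
  have hz2 : ∀ i, φ z ∈ U i := fun i => by
    have h1 : z ∈ φ ⁻¹' U i := attr_sub (Set.mem_iInter.1 hz i)
    exact h1
  exact periodic_image hU hm hsemi hz2 hn hzn

theorem goodSet_union {f : Endo k d} {J : Sort*} {S : J → Set (PP k)}
    (hS : ∀ j, GoodSet f (S j)) : GoodSet f (⋃ j, S j) := by
  rintro ι U hU ⟨x, hxS, hxK⟩
  obtain ⟨j, hj⟩ := Set.mem_iUnion.1 hxS
  obtain ⟨y, ⟨hyS, hyK⟩, hper⟩ := hS j ι U hU ⟨x, hj, hxK⟩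
  exact ⟨y, ⟨Set.mem_iUnion.2 ⟨j, hyS⟩, hyK⟩, hper⟩

/-- If the points of an algebraic hypersurface are eventually mapped into good sets, then all
quasi-attractors contain periodic points. -/
theorem good_of_eventually (hd : 2 ≤ d) {f : Endo k d} {e : ℕ} (he : 0 < e)
    {h : MvPolynomial (Fin (k + 1)) ℂ} (hh : h.IsHomogeneous e)
    (hhS : ∀ x : PP k, eval x.rep h = 0 → ∃ (l : ℕ) (S : Set (PP k)), f.map^[l] x ∈ S ∧
      GoodSet f S) : Good f := by
  intro ι U hU hne
  by_cases hK : ∀ x ∈ ⋂ i, attr f (U i), eval x.rep h ≠ 0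
  · exact miss hd hU hne he hh hK
  · push Not at hK
    obtain ⟨x, hx, hx0⟩ := hK
    obtain ⟨l, S, hxS, hS⟩ := hhS x hx0
    obtain ⟨y, ⟨-, hy⟩, hper⟩ := hS ι U hU ⟨f.map^[l] x, hxS,
      Set.mem_iInter.2 fun i => attr_inv (hU i) (Set.mem_iInter.1 hx i) l⟩
    exact ⟨y, hy, hper⟩

/-- If a good set contains an algebraic hypersurface then all quasi-attractors contain periodic
points. -/
theorem good_of_hypersurface (hd : 2 ≤ d) {f : Endo k d} {e : ℕ} (he : 0 < e)
    {h : MvPolynomial (Fin (k + 1)) ℂ} (hh : h.IsHomogeneous e) {S : Set (PP k)}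
    (hS : GoodSet f S) (hhS : ∀ x : PP k, eval x.rep h = 0 → x ∈ S) : Good f :=
  good_of_eventually hd he hh fun x hx => ⟨0, S, hhS x hx, hS⟩

theorem trapping_univ (f : Endo k d) : IsTrapping f Set.univ :=
  ⟨isOpen_univ, ⟨toPP ⟨fun _ => 1, fun h => one_ne_zero (congrFun h 0)⟩, trivial⟩,
    Set.subset_univ _⟩

/-- All endomorphisms of `ℙ^1` of degree at least two are good. -/
theorem good_one (hd : 2 ≤ d) (f : Endo 1 d) : Good f := by
  intro ι U hU hne
  by_cases hall : ∀ i, U i = Set.univ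
  · obtain ⟨x, -, n, hn, hxn⟩ := exists_periodic hd (trapping_univ f)
    refine ⟨x, Set.mem_iInter.2 fun i => periodic_mem_attr (hU i) ?_ hn hxn, n, hn, hxn⟩
    rw [hall i]
    trivial
  · push Not at hall
    obtain ⟨i, hi⟩ := hall
    obtain ⟨a, ha⟩ := (Set.ne_univ_iff_exists_notMem _).1 hi
    refine miss hd hU hne (e := 1) one_pos
      (h := C (a.rep 1) * X 0 - C (a.rep 0) * X 1) ?_ ?_
    · have h0 := (isHomogeneous_C (Fin 2) (a.rep 1)).mul (isHomogeneous_X ℂ (0 : Fin 2))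
      have h1 := (isHomogeneous_C (Fin 2) (a.rep 0)).mul (isHomogeneous_X ℂ (1 : Fin 2))
      exact h0.sub h1
    · intro x hx h0
      have hxU : x ∈ U i := attr_sub (Set.mem_iInter.1 hx i)
      have h1 : a.rep 1 * x.rep 0 = a.rep 0 * x.rep 1 := by
        simpa [sub_eq_zero] using h0
      apply ha
      have hax : a = x := by
        have h2 : toPP ⟨a.rep, a.rep_nonzero⟩ = toPP ⟨x.rep, x.rep_nonzero⟩ := by
          by_cases hx0 : x.rep 0 = 0
          · have hx1 : x.rep 1 ≠ 0 := by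
              intro h
              apply x.rep_nonzero
              funext l
              fin_cases l
              · exact hx0
              · exact h
            have ha0 : a.rep 0 = 0 := by
              rw [hx0, mul_zero] at h1
              exact (mul_eq_zero.1 h1.symm).resolve_right hx1
            refine toPP_eq a.rep_nonzero x.rep_nonzero (a.rep 1 / x.rep 1) ?_
            funext l
            fin_cases l
            · simp [hx0, ha0]
            · simp [hx1]
          · refine toPP_eq a.rep_nonzero x.rep_nonzero (a.rep 0 / x.rep 0) ?_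
            funext l
            fin_cases l
            · simp [hx0]
            · simp only [Fin.mk_one, Pi.smul_apply, smul_eq_mul]
              rw [div_mul_eq_mul_div, div_eq_iff hx0]
              exact h1.symm
        have ha' : toPP ⟨a.rep, a.rep_nonzero⟩ = a := a.mk_rep
        have hx' : toPP ⟨x.rep, x.rep_nonzero⟩ = x := x.mk_rep
        rwa [ha', hx'] at h2
      rwa [hax]

/-- All endomorphisms of `ℙ^0` are good. -/
theorem good_zero (f : Endo 0 d) : Good f := by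
  rintro ι U hU ⟨x, hx⟩
  refine ⟨x, hx, 1, one_pos, ?_⟩
  have hx' : toPP ⟨x.rep, x.rep_nonzero⟩ = x := x.mk_rep
  have hy' : toPP ⟨(f.map x).rep, (f.map x).rep_nonzero⟩ = f.map x := (f.map x).mk_rep
  have hl : ∀ l : Fin (0 + 1), l = 0 := fun l => Fin.ext (by have := l.2; omega)
  have hx0 : x.rep 0 ≠ 0 := by
    intro h
    apply x.rep_nonzero
    funext l
    rw [hl l]
    exact h
  have h1 : toPP ⟨(f.map x).rep, (f.map x).rep_nonzero⟩ = toPP ⟨x.rep, x.rep_nonzero⟩ := by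
    refine toPP_eq _ _ ((f.map x).rep 0 / x.rep 0) ?_
    funext l
    rw [hl l]
    simp only [Pi.smul_apply, smul_eq_mul]
    rw [div_mul_cancel₀ _ hx0]
  rw [hx', hy'] at h1
  exact h1

end Pool.Agent.helper15.QB
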